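import Mathlib
import Pool.Agent.H82.Q1.M7.Iface

set_option autoImplicit false
open Finset MeasureTheory ProbabilityTheory

/-! # The probability space of an environment and the filtration of a chain

* `Om E`, `PO E`: configurations of the finite set `E` of labels, uniform measure;
* `Fil R X`: filtration generated by the states of the chain (`Fil R X j`: states `0, .., j + 1`);
* `Ad R X j f`: `f` is a function of the states `0, .., j + 1`;
* times and corners up to the time of the state are adapted; exact martingale in test form. -/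

namespace Pool.Agent.H4.Q1.M7

open Pool.Agent.H75.Perc Pool.Agent.H75.TwoArm Pool.Agent.H75.Four Pool.Agent.H69.Q1
open Pool.Agent.H99.NC
open Pool.Agent.Q1.M3
open Pool.Agent.H82.Q1.M7 (cex mart)

/-- The configurations of `E`. -/
abbrev Om (E : Finset (ℤ × ℤ)) : Type := {ω : Finset (ℤ × ℤ) // ω ∈ E.powerset}

variable {E : Finset (ℤ × ℤ)}

instance : MeasurableSpace (Om E) := ⊤

instance : DiscreteMeasurableSpace (Om E) := ⟨fun _ => MeasurableSpace.measurableSet_top⟩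

instance : Nonempty (Om E) := ⟨⟨∅, Finset.empty_mem_powerset E⟩⟩

lemma Om.sub (ω : Om E) : ω.1 ⊆ E := Finset.mem_powerset.1 ω.2

/-- The element of `Om E` given by a subset. -/
def Om.mk {ω : Finset (ℤ × ℤ)} (h : ω ⊆ E) : Om E := ⟨ω, Finset.mem_powerset.2 h⟩

/-- The uniform measure. -/
noncomputable def PO (E : Finset (ℤ × ℤ)) : Measure (Om E) :=
  ∑ ω : Om E, ENNReal.ofReal (wt (fun _ => 1 / 2) E ω.1) • Measure.dirac ω

lemma wt0 (ω : Finset (ℤ × ℤ)) : 0 ≤ wt (fun _ => (1 / 2 : ℝ)) E ω :=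
  wt_nonneg (Pb.const (by norm_num) (by norm_num)) E ω

lemma integral_PO (f : Om E → ℝ) :
    ∫ ω, f ω ∂PO E = ∑ ω : Om E, wt (fun _ => 1 / 2) E ω.1 * f ω := by
  unfold PO
  rw [integral_finsetSum_measure]
  · refine Finset.sum_congr rfl fun ω _ => ?_
    rw [integral_smul_measure, integral_dirac, ENNReal.toReal_ofReal (wt0 _), smul_eq_mul]
  · intro ω _
    exact (integrable_dirac (by simp)).smul_measure ENNReal.ofReal_ne_top

/-- Integrals are expectations. -/
lemma integral_PO' (F : Finset (ℤ × ℤ) → ℝ) : ∫ ω, F ω.1 ∂PO E = EX E F := by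
  rw [integral_PO]
  unfold EX Ex
  exact Finset.sum_coe_sort E.powerset (fun ω => wt (fun _ => 1 / 2) E ω * F ω)

instance : IsProbabilityMeasure (PO E) := ⟨by
  unfold PO
  rw [Measure.finsetSum_apply]
  have h1 : ∀ ω : Om E, (ENNReal.ofReal (wt (fun _ => 1 / 2) E ω.1) • Measure.dirac ω) Set.univ
      = ENNReal.ofReal (wt (fun _ => 1 / 2) E ω.1) := by
    intro ω
    rw [Measure.smul_apply, measure_univ, smul_eq_mul, mul_one]
  simp only [h1]
  rw [← ENNReal.ofReal_sum_of_nonneg (fun ω _ => wt0 _)]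
  have h2 : (∑ ω : Om E, wt (fun _ => (1 / 2 : ℝ)) E ω.1) = 1 := by
    have h3 := Finset.sum_coe_sort E.powerset (fun ω => wt (fun _ => (1 / 2 : ℝ)) E ω)
    have h4 : EX E (fun _ => 1) = 1 := EX_const E 1
    unfold EX Ex at h4
    simp only [mul_one] at h4
    exact h3.trans h4
  rw [h2, ENNReal.ofReal_one]⟩

lemma integrable_PO (f : Om E → ℝ) : Integrable f (PO E) := by
  refine Integrable.of_bound (C := ∑ ω : Om E, |f ω|)
    (measurable_of_finite f).aestronglyMeasurable (Filter.Eventually.of_forall fun ω => ?_)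
  rw [Real.norm_eq_abs]
  exact Finset.single_le_sum (f := fun ω => |f ω|) (fun _ _ => abs_nonneg _) (Finset.mem_univ ω)

/-- Measures of events are probabilities. -/
lemma real_PO (P : Finset (ℤ × ℤ) → Prop) : (PO E).real {ω | P ω.1} = Pr E P := by
  rw [Pr_eq_EX, ← integral_PO', ← integral_indicator_one (MeasurableSet.of_discrete)]
  refine integral_congr_ae (Filter.Eventually.of_forall fun ω => ?_)
  by_cases h : P ω.1
  · simp only
    rw [ind_true h, Set.indicator_of_mem (show ω ∈ {ω : Om E | P ω.1} from h)]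
    rfl
  · simp only
    rw [ind_false h, Set.indicator_of_notMem (show ω ∉ {ω : Om E | P ω.1} from h)]

/-! ### Filtration -/

section Fil

variable (R : Rules) (X : DEnv)

/-- The history with all states. -/
noncomputable abbrev Hi (j : ℕ) (ω : Finset (ℤ × ℤ)) : List (DEnv × DEnv) :=
  R.hist (fun Z Z' => (Z, Z')) j X ω

/-- The function `f` depends only on the states `0, .., j + 1`. -/
def Ad {β : Type*} (j : ℕ) (f : Om X.E → β) : Prop :=
  ∀ ω ω' : Om X.E, Hi R X (j + 1) ω.1 = Hi R X (j + 1) ω'.1 → f ω = f ω'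

lemma Hi_pred {j : ℕ} {ω ω' : Finset (ℤ × ℤ)} (h : Hi R X (j + 1) ω = Hi R X (j + 1) ω') :
    Hi R X j ω = Hi R X j ω' ∧ R.st j X ω = R.st j X ω' ∧
      R.st (j + 1) X ω = R.st (j + 1) X ω' := by
  unfold Hi at h
  rw [R.hist_last, R.hist_last] at h
  obtain ⟨h1, h2⟩ := List.append_inj' h rfl
  rw [List.cons.injEq, Prod.mk.injEq] at h2
  exact ⟨h1, h2.1.1, h2.1.2⟩

lemma Hi_le {i j : ℕ} (hij : i ≤ j) {ω ω' : Finset (ℤ × ℤ)}
    (h : Hi R X j ω = Hi R X j ω') : Hi R X i ω = Hi R X i ω' := by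
  induction j with
  | zero =>
    rw [Nat.le_zero.1 hij]; exact h
  | succ j ih =>
    rcases Nat.lt_or_ge i (j + 1) with h1 | h1
    · exact ih (by omega) (Hi_pred R X h).1
    · have : i = j + 1 := by omega
      rw [this]; exact h

lemma st_of_Hi {i j : ℕ} (hij : i ≤ j) {ω ω' : Finset (ℤ × ℤ)}
    (h : Hi R X j ω = Hi R X j ω') : R.st i X ω = R.st i X ω' := by
  rcases Nat.eq_zero_or_pos i with h0 | h0
  · rw [h0]; rfl
  · obtain ⟨i, rfl⟩ : ∃ i', i = i' + 1 := ⟨i - 1, by omega⟩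
    exact (Hi_pred R X (Hi_le R X hij h)).2.2

/-- The filtration of the chain. -/
noncomputable def Fil : Filtration ℕ (inferInstance : MeasurableSpace (Om X.E)) where
  seq j := MeasurableSpace.comap (fun ω : Om X.E => Hi R X (j + 1) ω.1) ⊤
  mono' := by
    intro i j hij
    rintro s ⟨t, -, rfl⟩
    refine ⟨{l | ∃ ω : Om X.E, Hi R X (j + 1) ω.1 = l ∧ Hi R X (i + 1) ω.1 ∈ t}, trivial, ?_⟩
    ext ω
    constructor
    · rintro ⟨ω', h1, h2⟩
      have h3 := Hi_le R X (show i + 1 ≤ j + 1 by omega) h1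
      show Hi R X (i + 1) ω.1 ∈ t
      rw [← h3]; exact h2
    · intro h
      exact ⟨ω, rfl, h⟩
  le' := fun _ _ _ => MeasurableSpace.measurableSet_top

variable {R X}

lemma Ad.mono {β : Type*} {i j : ℕ} {f : Om X.E → β} (h : Ad R X i f) (hij : i ≤ j) :
    Ad R X j f := fun ω ω' h1 => h ω ω' (Hi_le R X (by omega) h1)

lemma Ad.comp {β γ : Type*} {j : ℕ} {f : Om X.E → β} (h : Ad R X j f) (g : β → γ) :
    Ad R X j (fun ω => g (f ω)) := fun ω ω' h1 => congrArg g (h ω ω' h1)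

lemma Ad.comp2 {β γ ε : Type*} {j : ℕ} {f : Om X.E → β} {f' : Om X.E → γ} (h : Ad R X j f)
    (h' : Ad R X j f') (g : β → γ → ε) : Ad R X j (fun ω => g (f ω) (f' ω)) :=
  fun ω ω' h1 => congrArg₂ g (h ω ω' h1) (h' ω ω' h1)

lemma Ad.const {β : Type*} (j : ℕ) (b : β) : Ad R X j (fun _ => b) := fun _ _ _ => rfl

/-- Adapted functions are measurable. -/
lemma Ad.meas {β : Type*} [MeasurableSpace β] {j : ℕ} {f : Om X.E → β} (h : Ad R X j f) :
    Measurable[Fil R X j] f := by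
  intro s _
  refine ⟨{l | ∃ ω : Om X.E, Hi R X (j + 1) ω.1 = l ∧ f ω ∈ s}, trivial, ?_⟩
  ext ω
  constructor
  · rintro ⟨ω', h1, h2⟩
    show f ω ∈ s
    rw [← h ω' ω h1]; exact h2
  · intro h1
    exact ⟨ω, rfl, h1⟩

lemma Ad.smeas {j : ℕ} {f : Om X.E → ℝ} (h : Ad R X j f) : StronglyMeasurable[Fil R X j] f :=
  Measurable.stronglyMeasurable h.meas

/-- Measurable functions are adapted. -/
lemma ad_of_meas {β : Type*} [MeasurableSpace β] [MeasurableSingletonClass β] {j : ℕ}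
    {f : Om X.E → β} (h : Measurable[Fil R X j] f) : Ad R X j f := by
  intro ω ω' h1
  obtain ⟨t, -, ht⟩ := h (measurableSet_singleton (f ω'))
  have h2 : ω' ∈ (fun ω : Om X.E => Hi R X (j + 1) ω.1) ⁻¹' t := by
    rw [ht]; exact rfl
  have h3 : ω ∈ (fun ω : Om X.E => Hi R X (j + 1) ω.1) ⁻¹' t := by
    show Hi R X (j + 1) ω.1 ∈ t
    rw [h1]; exact h2
  rw [ht] at h3
  exact h3

lemma Ad.set {j : ℕ} {P : Om X.E → Prop} (h : Ad R X j P) :
    MeasurableSet[Fil R X j] {ω | P ω} := h.meas (show MeasurableSet {p : Prop | p} from trivial)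

lemma ad_st {i j : ℕ} (hij : i ≤ j + 1) : Ad R X j (fun ω => R.st i X ω.1) :=
  fun _ _ h => st_of_Hi R X hij h

/-! ### The path -/

/-- The history determines the times and the path. -/
theorem path_of_Hi {j : ℕ} {ω ω' : Finset (ℤ × ℤ)} (hω : ω ⊆ X.E) (hω' : ω' ⊆ X.E)
    (h : Hi R X j ω = Hi R X j ω') :
    R.tm j X ω = R.tm j X ω' ∧ ∀ t ≤ R.tm j X ω, X.cor ω t = X.cor ω' t := by
  induction j with
  | zero =>
    refine ⟨rfl, fun t ht => ?_⟩
    rw [R.tm_zero] at ht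
    rw [Nat.le_zero.1 ht]; rfl
  | succ j ih =>
    obtain ⟨h1, h2, h3⟩ := Hi_pred R X h
    obtain ⟨h4, h5⟩ := ih h1
    have hc := R.cf_sub hω j
    have hc' := R.cf_sub hω' j
    rw [R.st_last, R.st_last] at h3
    set Y := R.st j X ω with hY
    rw [← h2] at h3 hc'
    have hE := congrArg DEnv.E h3
    have hW := congrArg DEnv.W h3
    rw [Rules.nenv_E, Rules.nenv_E, inter_eq_left.2 hc, inter_eq_left.2 hc'] at hE
    rw [Rules.nenv_W, Rules.nenv_W, inter_eq_left.2 hc, inter_eq_left.2 hc'] at hW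
    set η := R.cf j X ω with hη
    set η' := R.cf j X ω' with hη'
    have hU : Y.exset (R.Q Y) η = Y.exset (R.Q Y) η' := by
      have e1 : Y.exset (R.Q Y) η = Y.E \ (Y.E \ Y.exset (R.Q Y) η) :=
        (Finset.sdiff_sdiff_eq_self (Y.exset_sub η)).symm
      have e2 : Y.exset (R.Q Y) η' = Y.E \ (Y.E \ Y.exset (R.Q Y) η') :=
        (Finset.sdiff_sdiff_eq_self (Y.exset_sub η')).symm
      rw [e1, e2, hE]
    have hag : ∀ e ∈ Y.exset (R.Q Y) η, (e ∈ η' ↔ e ∈ η) := by
      intro e he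
      have heE : e ∈ Y.E := Y.exset_sub η he
      have heW : e ∉ Y.W := fun h6 => Finset.disjoint_left.1 Y.disj heE h6
      constructor
      · intro h6
        have h7 : e ∈ Y.W ∪ η' ∩ Y.exset (R.Q Y) η' :=
          mem_union_right _ (mem_inter.2 ⟨h6, hU ▸ he⟩)
        rw [← hW] at h7
        exact (mem_inter.1 ((mem_union.1 h7).resolve_left heW)).1
      · intro h6
        have h7 : e ∈ Y.W ∪ η ∩ Y.exset (R.Q Y) η :=
          mem_union_right _ (mem_inter.2 ⟨h6, he⟩)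
        rw [hW] at h7
        exact (mem_inter.1 ((mem_union.1 h7).resolve_left heW)).1
    obtain ⟨h6, h7, -⟩ := Y.local_exset (R.ad Y) hc hc' hag
    have t1 : R.tm (j + 1) X ω = R.tm j X ω + Y.tau (R.Q Y) η := by
      rw [R.tm_last, ← hY, ← hη, inter_eq_left.2 hc]
    have t2 : R.tm (j + 1) X ω' = R.tm j X ω' + Y.tau (R.Q Y) η' := by
      rw [R.tm_last, ← h2, ← hη', inter_eq_left.2 hc']
    refine ⟨by rw [t1, t2, h4, h6], fun t ht => ?_⟩
    rcases le_or_gt t (R.tm j X ω) with h8 | h8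
    · exact h5 t h8
    · have h9 := R.st_cor hω j (t - R.tm j X ω)
      have h10 := R.st_cor hω' j (t - R.tm j X ω)
      rw [Nat.sub_add_cancel h8.le] at h9
      rw [← h4, Nat.sub_add_cancel h8.le, ← h2, ← hη'] at h10
      rw [← hY, ← hη] at h9
      rw [← h9, ← h10]
      exact (h7 _ (by omega)).symm

lemma ad_tm {i j : ℕ} (hij : i ≤ j + 1) : Ad R X j (fun ω => R.tm i X ω.1) :=
  fun ω ω' h => (path_of_Hi ω.sub ω'.sub (Hi_le R X hij h)).1

/-- Corners up to the time of the state. -/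
lemma cor_of_Hi {j : ℕ} {ω ω' : Om X.E} (h : Hi R X (j + 1) ω.1 = Hi R X (j + 1) ω'.1) {t : ℕ}
    (ht : t ≤ R.tm (j + 1) X ω.1) : X.cor ω.1 t = X.cor ω'.1 t :=
  (path_of_Hi ω.sub ω'.sub h).2 t ht

/-! ### Martingale property in test form -/

/-- An adapted function is a function of the history. -/
lemma Ad.factor {β : Type*} [Inhabited β] {j : ℕ} {f : Om X.E → β} (h : Ad R X j f) :
    ∃ g : List (DEnv × DEnv) → β, ∀ ω, f ω = g (Hi R X (j + 1) ω.1) := by
  classical
  have H : ∀ l : List (DEnv × DEnv), ∃ b : β, ∀ ω : Om X.E, Hi R X (j + 1) ω.1 = l → f ω = b := by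
    intro l
    by_cases h1 : ∃ ω : Om X.E, Hi R X (j + 1) ω.1 = l
    · obtain ⟨ω, hω⟩ := h1
      exact ⟨f ω, fun ω' h2 => h _ _ (h2.trans hω.symm)⟩
    · exact ⟨default, fun ω h2 => absurd ⟨ω, h2⟩ h1⟩
  choose g hg using H
  exact ⟨g, fun ω => hg _ ω rfl⟩

/-- **Exact martingale property, test form.** -/
theorem mart_test {j : ℕ} {Y : Om X.E → ℝ} (hY : Ad R X j Y) (f : Finset (ℤ × ℤ) → ℝ) :
    ∫ ω, Y ω * (cex f (R.st (j + 2) X ω.1) - cex f (R.st (j + 1) X ω.1)) ∂PO X.E = 0 := by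
  obtain ⟨g, hg⟩ := hY.factor
  have h1 := mart R (fun Z Z' => (Z, Z')) f (j + 1) X (fun l _ => g l)
  have h2 : ∀ ω : Om X.E, Y ω * (cex f (R.st (j + 2) X ω.1) - cex f (R.st (j + 1) X ω.1))
      = (fun ω => g (Hi R X (j + 1) ω) * cex f (R.st (j + 1 + 1) X ω)
        - g (Hi R X (j + 1) ω) * cex f (R.st (j + 1) X ω)) ω.1 := by
    intro ω
    rw [hg ω]
    simp only
    ring
  simp only [h2]
  rw [integral_PO' (fun ω => g (Hi R X (j + 1) ω) * cex f (R.st (j + 1 + 1) X ω)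
        - g (Hi R X (j + 1) ω) * cex f (R.st (j + 1) X ω)), EX_sub, h1, sub_self]

end Fil

end Pool.Agent.H4.Q1.M7
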