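import Mathlib
import Pool.Agent.H83.M7.InstStep
import Pool.Agent.H66.M7.ArrayS
import Pool.Agent.H4.Q1.M7.Omega

set_option autoImplicit false
open Finset Filter Topology MeasureTheory ProbabilityTheory

/-! # The micro chain: the states of the exploration as a chain of germs -/

namespace Pool.Agent.H4.Q1.M7

open Pool.Agent.H75.Perc Pool.Agent.H75.TwoArm Pool.Agent.H75.Four Pool.Agent.H69.Q1
open Pool.Agent.H99.NC
open Pool.Agent.H81.Q1 (pt DDomain Approx IsJordanDomain IsArcs)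
open Pool.Agent.Q1.M3
open Pool.Agent.Q1.M3.Pg (SD LX gx lo)
open Pool.Agent.H82.Q1.M7
open Pool.Agent.H83.M7
open Pool.Agent.H66.M7 (Germ rc kap kc Chn)

variable {D : Set ℂ} {a b : ℂ} {A₁ A₂ : Set ℂ} {A : Approx D a b A₁ A₂} {r0 : ℝ}

/-- The point visited at the time `t`. -/
noncomputable def gp (A : Approx D a b A₁ A₂) (n : ℕ) (ω : Finset (ℤ × ℤ)) (t : ℕ) : ℂ :=
  pt (A.δ n) (vx ((X0 A n).cor ω t))

/-- The step from the state `i` to the state `i + 1` has a displacement larger than `e0`. -/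
def Lrg (B : Base A r0) (k0 n : ℕ) (e0 : ℝ) (i : ℕ) (ω : Finset (ℤ × ℤ)) : Prop :=
  ∃ t, B.T k0 n i ω ≤ t ∧ t ≤ B.T k0 n (i + 1) ω ∧
    e0 < dist (gp A n ω t) (gp A n ω (B.T k0 n i ω))

/-- Good states: first step in `F0`, distance `r` from `b`, tip at distance `ρ` from the corners, no
large step. -/
def gS (B : Base A r0) (k0 n : ℕ) (F0 : Set (Om (X0 A n).E)) (r ρ e0 : ℝ) (j : ℕ) :
    Set (Om (X0 A n).E) :=
  {ω | ω ∈ F0 ∧ (∀ t ≤ B.T k0 n (j + 1) ω.1, r ≤ dist (gp A n ω.1 t) b) ∧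
    B.Good k0 n ρ (B.X k0 n (j + 1) ω.1) ∧ ∀ i, 1 ≤ i → i ≤ j → ¬ Lrg B k0 n e0 i ω.1}

section basic

variable {B : Base A r0} {k0 n : ℕ} {ω : Finset (ℤ × ℤ)}

lemma T_mono {i j : ℕ} (h : i ≤ j) : B.T k0 n i ω ≤ B.T k0 n j ω := by
  induction j with
  | zero => rw [Nat.le_zero.1 h]
  | succ j ih =>
    rcases Nat.lt_or_ge i (j + 1) with h1 | h1
    · exact (ih (by omega)).trans (Rules.tm_mono _ _ _ _)
    · have : i = j + 1 := by omega
      rw [this]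

/-- A large step in terms of the state. -/
lemma lrg_iff (hω : ω ⊆ (X0 A n).E) (e0 : ℝ) (i : ℕ) :
    Lrg B k0 n e0 i ω ↔
      Large B k0 n e0 (B.X k0 n i ω) ((B.rules k0 n).cf i (X0 A n) ω) := by
  have h1 : B.T k0 n (i + 1) ω = B.T k0 n i ω +
      (B.rules k0 n).tm 1 (B.X k0 n i ω) ((B.rules k0 n).cf i (X0 A n) ω) := by
    unfold Base.T Base.X
    rw [Rules.tm_last, Rules.tm_succ, Rules.tm_zero, add_zero]
  have h2 : ∀ t, (B.X k0 n i ω).cor ((B.rules k0 n).cf i (X0 A n) ω) t =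
      (X0 A n).cor ω (t + B.T k0 n i ω) := fun t => Rules.st_cor _ hω i t
  have h3 : (B.X k0 n i ω).α = (X0 A n).cor ω (B.T k0 n i ω) := Rules.st_α _ hω i
  unfold Lrg Large gp
  rw [h3]
  constructor
  · rintro ⟨t, ht, ht', h4⟩
    refine ⟨t - B.T k0 n i ω, by omega, ?_⟩
    rw [h2, Nat.sub_add_cancel ht]
    exact h4
  · rintro ⟨t, ht, h4⟩
    rw [h2] at h4
    exact ⟨t + B.T k0 n i ω, by omega, by omega, h4⟩

/-- Points of the barrier are near `b`. -/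
lemma Sbar_ball {z : ℂ} (hz : z ∈ Sbar B) : dist z b < r0 := by
  unfold Sbar at hz
  simp only [Set.mem_iUnion] at hz
  obtain ⟨M, q, hq, hz⟩ := hz
  exact Metric.mem_ball.1 (B.subQ M q hq hz).2

lemma farS_of {r1 : ℝ} {j : ℕ} (h : ∀ t ≤ B.T k0 n j ω, r1 ≤ dist (gp A n ω t) b) :
    FarS B n (r1 - r0) k0 j ω := by
  intro t ht z hz
  have h1 := h t ht
  have h2 := Sbar_ball hz
  have h3 := dist_triangle (gp A n ω t) z b
  unfold gp at h1 h3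
  linarith

lemma farS_mono {ρ ρ' : ℝ} {j : ℕ} (h : FarS B n ρ k0 j ω) (hρ : ρ' ≤ ρ) :
    FarS B n ρ' k0 j ω := fun t ht z hz => hρ.trans (h t ht z hz)

lemma good_mono {ρ ρ' : ℝ} {X : DEnv} (h : B.Good k0 n ρ X) (hρ : ρ' ≤ ρ) :
    B.Good k0 n ρ' X := fun m => hρ.trans (h m)

lemma eu_star1 {e v : ℤ × ℤ} (h : e ∈ star1 v) : e ∈ star1 (eu e) := by
  have ho := odd_star1 h
  rw [mem_star1_iff ho]
  exact Or.inl rfl

/-- Far states are fresh. -/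
lemma freshS_of (hω : ω ⊆ (X0 A n).E) {ρ : ℝ} {j : ℕ} (h : FarS B n ρ k0 j ω) :
    FreshS B n (ρ - A.δ n) (B.X k0 n j ω) := by
  intro e he he' z hz
  have h1 : (B.X k0 n j ω).E = (X0 A n).E \ Rules.metE (X0 A n) ω (B.T k0 n j ω) :=
    Rules.st_E _ hω j
  rw [h1, Finset.mem_sdiff, not_and, not_not] at he'
  obtain ⟨-, t, ht, h2⟩ := Rules.mem_metE.1 (he' he)
  have h3 := h t ht.le z hz
  have h4 : e ∈ star1 (vx ((X0 A n).cor ω t)) := by
    rw [← h2]; exact plab_star1 _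
  have h5 := dist_of_star1 (A.pos n) h4 (eu_star1 h4)
  have h6 := dist_triangle (pt (A.δ n) (vx ((X0 A n).cor ω t))) (pt (A.δ n) (eu e)) z
  linarith

lemma freshS_mono {ρ ρ' : ℝ} {X : DEnv} (h : FreshS B n ρ X) (hρ : ρ' ≤ ρ) :
    FreshS B n ρ' X := fun e he he' z hz => hρ.trans (h e he he' z hz)

variable {F0 : Set (Om (X0 A n).E)} {r r' ρ e0 : ℝ}

lemma gS_anti (h : r' ≤ r) (j : ℕ) : gS B k0 n F0 r ρ e0 j ⊆ gS B k0 n F0 r' ρ e0 j :=
  fun _ hω => ⟨hω.1, fun t ht => h.trans (hω.2.1 t ht), hω.2.2.1, hω.2.2.2⟩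

/-- Good states are admissible. -/
lemma adm_of_gS {w : Win B} (hw : 2 * w.l ≤ r - r0) {j : ℕ} {ω : Om (X0 A n).E}
    (h : ω ∈ gS B k0 n F0 r ρ e0 j) : Adm w n ρ k0 (j + 1) ω.1 :=
  ⟨farS_mono (farS_of h.2.1) hw, h.2.2.1⟩

/-- The state after a step which is not large is far. -/
lemma far_step {j : ℕ} {ω : Finset (ℤ × ℤ)}
    (h : ∀ t ≤ B.T k0 n j ω, r ≤ dist (gp A n ω t) b) (hL : ¬ Lrg B k0 n e0 j ω)
    (hr : r' + e0 ≤ r) (he : 0 ≤ e0) : ∀ t ≤ B.T k0 n (j + 1) ω, r' ≤ dist (gp A n ω t) b := by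
  intro t ht
  rcases le_or_gt t (B.T k0 n j ω) with h1 | h1
  · have := h t h1
    linarith
  · have h2 := h _ le_rfl
    have h3 : dist (gp A n ω t) (gp A n ω (B.T k0 n j ω)) ≤ e0 := by
      by_contra h4
      exact hL ⟨t, h1.le, ht, not_le.1 h4⟩
    have h4 := dist_triangle (gp A n ω (B.T k0 n j ω)) (gp A n ω t) b
    rw [dist_comm] at h3
    linarith

end basic

/-! ### Measurability -/

section meas

variable {B : Base A r0} {k0 n : ℕ}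

/-- The filtration of the chain of the base. -/
noncomputable abbrev FX (B : Base A r0) (k0 n : ℕ) := Fil (B.rules k0 n) (X0 A n)

/-- Adapted functions for the chain of the base. -/
abbrev AdX (B : Base A r0) (k0 n : ℕ) {β : Type*} (j : ℕ) (f : Om (X0 A n).E → β) : Prop :=
  Ad (B.rules k0 n) (X0 A n) j f

lemma ad_X {i j : ℕ} (h : i ≤ j + 1) : AdX B k0 n j (fun ω => B.X k0 n i ω.1) := ad_st h

lemma ad_T {i j : ℕ} (h : i ≤ j + 1) : AdX B k0 n j (fun ω => B.T k0 n i ω.1) := ad_tm h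

lemma ad_SDj (P : Par B) (K : ℕ) {i j : ℕ} (h : i ≤ j) :
    AdX B k0 n j (fun ω => SDj B P k0 K n i ω.1) :=
  (ad_X (i := i) (by omega)).comp2 (ad_X (i := i + 1) (by omega)) (fun X X' => SDX B P k0 K n X X')

lemma ad_far {i j : ℕ} (h : i ≤ j + 1) (r : ℝ) (p : ℂ) :
    AdX B k0 n j (fun ω => ∀ t ≤ B.T k0 n i ω.1, r ≤ dist (gp A n ω.1 t) p) := by
  intro ω ω' h1
  have h2 := ad_T h ω ω' h1
  simp only at h2
  have h3 : ∀ t ≤ B.T k0 n i ω.1, gp A n ω.1 t = gp A n ω'.1 t := by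
    intro t ht
    unfold gp
    rw [cor_of_Hi h1 (ht.trans (T_mono h))]
  simp only [eq_iff_iff]
  rw [← h2]
  exact forall₂_congr fun t ht => by rw [h3 t ht]

lemma ad_lrg {i j : ℕ} (h : i ≤ j) (e0 : ℝ) :
    AdX B k0 n j (fun ω => Lrg B k0 n e0 i ω.1) := by
  intro ω ω' h1
  have h2 := ad_T (i := i) (by omega) ω ω' h1
  have h2' := ad_T (i := i + 1) (by omega) ω ω' h1
  simp only at h2 h2'
  have h3 : ∀ t ≤ B.T k0 n (i + 1) ω.1, gp A n ω.1 t = gp A n ω'.1 t := by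
    intro t ht
    unfold gp
    rw [cor_of_Hi h1 (ht.trans (T_mono (by omega)))]
  simp only [eq_iff_iff]
  unfold Lrg
  rw [← h2, ← h2']
  refine exists_congr fun t => and_congr_right fun ht => and_congr_right fun ht' => ?_
  rw [h3 t ht', h3 _ (T_mono (by omega))]

lemma ad_gS {F0 : Set (Om (X0 A n).E)} (hF : AdX B k0 n 0 (fun ω => ω ∈ F0)) (r ρ e0 : ℝ) (j : ℕ) :
    AdX B k0 n j (fun ω => ω ∈ gS B k0 n F0 r ρ e0 j) := by
  intro ω ω' h1
  have h2 := hF.mono (Nat.zero_le j) ω ω' h1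
  have h3 := ad_far (B := B) (k0 := k0) le_rfl r b ω ω' h1
  have h4 := (ad_X (B := B) (k0 := k0) le_rfl).comp (fun X => B.Good k0 n ρ X) ω ω' h1
  have h5 : (∀ i, 1 ≤ i → i ≤ j → ¬ Lrg B k0 n e0 i ω.1) =
      (∀ i, 1 ≤ i → i ≤ j → ¬ Lrg B k0 n e0 i ω'.1) := by
    simp only [eq_iff_iff]
    refine forall_congr' fun i => forall₂_congr fun _ hi => ?_
    have h6 := ad_lrg (B := B) (k0 := k0) hi e0 ω ω' h1
    simp only [eq_iff_iff] at h6
    rw [h6]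
  simp only at h2 h3 h4
  show (ω ∈ F0 ∧ _ ∧ _ ∧ _) = (ω' ∈ F0 ∧ _ ∧ _ ∧ _)
  rw [h2, h3, h4, h5]

end meas

/-! ### Markov property in test form -/

theorem markov_test {R : Rules} {X : DEnv} {j : ℕ} {Y : Om X.E → ℝ} (hY : Ad R X j Y)
    (g : DEnv → Finset (ℤ × ℤ) → ℝ) :
    ∫ ω, Y ω * g (R.st (j + 1) X ω.1) (R.cf (j + 1) X ω.1) ∂PO X.E =
      ∫ ω, Y ω * EX (R.st (j + 1) X ω.1).E (g (R.st (j + 1) X ω.1)) ∂PO X.E := by
  obtain ⟨y, hy⟩ := hY.factor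
  have h1 := R.markov (fun Z Z' => (Z, Z')) (j + 1) X (fun l Z η => y l * g Z η)
  have h2 : ∀ ω : Om X.E, Y ω * g (R.st (j + 1) X ω.1) (R.cf (j + 1) X ω.1) =
      (fun ω => y (Hi R X (j + 1) ω) * g (R.st (j + 1) X ω) (R.cf (j + 1) X ω)) ω.1 :=
    fun ω => by rw [hy ω]
  have h3 : ∀ ω : Om X.E, Y ω * EX (R.st (j + 1) X ω.1).E (g (R.st (j + 1) X ω.1)) =
      (fun ω => EX (R.st (j + 1) X ω).E
        (fun η => y (Hi R X (j + 1) ω) * g (R.st (j + 1) X ω) η)) ω.1 := by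
    intro ω
    simp only
    rw [hy ω, EX_smul]
  simp only [h2, h3]
  rw [integral_PO' (fun ω => y (Hi R X (j + 1) ω) * g (R.st (j + 1) X ω) (R.cf (j + 1) X ω)),
    integral_PO' (fun ω => EX (R.st (j + 1) X ω).E
        (fun η => y (Hi R X (j + 1) ω) * g (R.st (j + 1) X ω) η))]
  exact h1

/-! ### The chain -/

section chain

variable (B : Base A r0) (w : Win B) (P : Par B) (k0 K n : ℕ)

/-- The germ of the state `j + 1`. -/
noncomputable def Aj (j : ℕ) (ω : Om (X0 A n).E) : ℂ → ℂ := AX B w (SDj B P k0 K n j ω.1)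

/-- The position of the tip of the state `j + 1`. -/
noncomputable def Wj (j : ℕ) (ω : Om (X0 A n).E) : ℝ := WX B w (SDj B P k0 K n j ω.1)

/-- The normalised observable of the state `j + 1` at the node `q (i + 1)`. -/
noncomputable def Mj (pz : ℝ → ℝ) (C0 : ℝ) (q : ℤ) (j i : ℕ) (ω : Om (X0 A n).E) : ℝ :=
  w.h n (q * (i + 1)) (B.X k0 n (j + 1) ω.1) / pz (A.δ n)⁻¹ / C0

variable {B w P k0 K n}

lemma ad_Aj (j : ℕ) : AdX B k0 n j (Aj B w P k0 K n j) := (ad_SDj P K le_rfl).comp _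

lemma ad_Wj (j : ℕ) : AdX B k0 n j (Wj B w P k0 K n j) := (ad_SDj P K le_rfl).comp _

lemma ad_Mj (pz : ℝ → ℝ) (C0 : ℝ) (q : ℤ) (j i : ℕ) : AdX B k0 n j (Mj B w k0 n pz C0 q j i) :=
  (ad_X le_rfl).comp (fun X => w.h n (q * (i + 1)) X / pz (A.δ n)⁻¹ / C0)

lemma h_nonneg (i : ℤ) (X : DEnv) : 0 ≤ w.h n i X := by
  rw [w.h_eq_cex]
  exact EX_nonneg fun ω _ => ind_nonneg _

/-- The exact martingale property. -/
lemma Mj_mart (pz : ℝ → ℝ) (C0 : ℝ) (q : ℤ) (j i : ℕ) {Y : Om (X0 A n).E → ℝ}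
    (hY : AdX B k0 n j Y) :
    ∫ ω, Y ω * Mj B w k0 n pz C0 q (j + 1) i ω ∂PO (X0 A n).E =
      ∫ ω, Y ω * Mj B w k0 n pz C0 q j i ω ∂PO (X0 A n).E := by
  have h1 := mart_test hY (fun S => ind (w.ev n (q * (i + 1)) S))
  have h2 : ∀ ω : Om (X0 A n).E, Y ω * (cex (fun S => ind (w.ev n (q * (i + 1)) S))
      ((B.rules k0 n).st (j + 2) (X0 A n) ω.1) - cex (fun S => ind (w.ev n (q * (i + 1)) S))
      ((B.rules k0 n).st (j + 1) (X0 A n) ω.1)) =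
      Y ω * w.h n (q * (i + 1)) (B.X k0 n (j + 2) ω.1) -
        Y ω * w.h n (q * (i + 1)) (B.X k0 n (j + 1) ω.1) := by
    intro ω
    rw [w.h_eq_cex, w.h_eq_cex, mul_sub]
    rfl
  simp only [h2] at h1
  rw [integral_sub (integrable_PO _) (integrable_PO _), sub_eq_zero] at h1
  have h3 : ∀ (j : ℕ) (ω : Om (X0 A n).E), Y ω * Mj B w k0 n pz C0 q j i ω =
      (pz (A.δ n)⁻¹)⁻¹ * C0⁻¹ * (Y ω * w.h n (q * (i + 1)) (B.X k0 n (j + 1) ω.1)) := by
    intro j ω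
    unfold Mj
    rw [div_eq_mul_inv, div_eq_mul_inv]
    ring
  simp only [h3]
  rw [integral_const_mul, integral_const_mul, h1]

end chain

end Pool.Agent.H4.Q1.M7
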