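import Mathlib
import Pool.Agent.H4.Q1.M7.Micro

set_option autoImplicit false
open Finset Filter Topology MeasureTheory ProbabilityTheory

/-! # The micro chain satisfies the hypotheses of the array theorem -/

namespace Pool.Agent.H4.Q1.M7

open Pool.Agent.H75.Perc Pool.Agent.H75.TwoArm Pool.Agent.H75.Four Pool.Agent.H69.Q1
open Pool.Agent.H99.NC
open Pool.Agent.H81.Q1 (pt DDomain Approx IsJordanDomain IsArcs)
open Pool.Agent.Q1.M3
open Pool.Agent.Q1.M3.Pg (SD LX gx lo)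
open Pool.Agent.H82.Q1.M7
open Pool.Agent.H83.M7
open Pool.Agent.H66.M7 (Germ rc kap kc Chn)

variable {D : Set ℂ} {a b : ℂ} {A₁ A₂ : Set ℂ} {A : Approx D a b A₁ A₂} {r0 : ℝ}

/-- **The micro chain** of the base `B`, window `w`, parameters `P`, levels `k0` (chain), `K`
(polygons), index `n`; nodes `q (i + 1)`; `gS .. r1` : good states, `gS .. r2` : the chain goes on. -/
structure MicroAt (B : Base A r0) (w : Win B) (P : Par B) (k0 K n : ℕ) (pz : ℝ → ℝ) (C0 : ℝ)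
    (q : ℤ) (r1 r2 ρ e0 C ε : ℝ) : Prop where
  /-- hypotheses of the array theorem -/
  chn : ∀ (J : ℕ) (al0 : ℝ) (al : Om (X0 A n).E → ℝ) (F0 : Set (Om (X0 A n).E)),
    (∀ ω, 0 ≤ al ω) → (∀ ω, al ω ≤ al0) → AdX B k0 n 0 al → AdX B k0 n 0 (fun ω => ω ∈ F0) →
    Chn (PO (X0 A n).E) (FX B k0 n) w.l (10 / w.l) (11 / w.l) al0 (q * mesh (w.k1 + 1)) ε
      (fun j => ∑ i ∈ range 5, ∫ ω in gS B k0 n F0 r2 ρ e0 j \ gS B k0 n F0 r1 ρ e0 (j + 1),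
        |Mj B w k0 n pz C0 q (j + 1) i ω - Mj B w k0 n pz C0 q j i ω| ∂PO (X0 A n).E) J
      (Aj B w P k0 K n) (Wj B w P k0 K n) (Mj B w k0 n pz C0 q)
      (gS B k0 n F0 r1 ρ e0) (gS B k0 n F0 r2 ρ e0) al
  /-- bound of the observables -/
  hM : ∀ (F0 : Set (Om (X0 A n).E)) (j i : ℕ), i ≤ 4 → ∀ ω ∈ gS B k0 n F0 r1 ρ e0 j,
    |Mj B w k0 n pz C0 q j i ω| ≤ C
  /-- bad steps -/
  hbad : ∀ F0 : Set (Om (X0 A n).E), AdX B k0 n 0 (fun ω => ω ∈ F0) → ∀ j i : ℕ, i ≤ 4 →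
    ∀ S : Set (Om (X0 A n).E), MeasurableSet[FX B k0 n j] S → S ⊆ gS B k0 n F0 r2 ρ e0 j →
      ∫ ω in S \ gS B k0 n F0 r1 ρ e0 (j + 1), |Mj B w k0 n pz C0 q (j + 1) i ω| ∂PO (X0 A n).E ≤
        C * (PO (X0 A n).E).real (S \ gS B k0 n F0 r1 ρ e0 (j + 1))
  /-- geometry -/
  geo : ∀ (F0 : Set (Om (X0 A n).E)) (j : ℕ), ∀ ω ∈ gS B k0 n F0 r1 ρ e0 j,
    Adm w n ρ k0 (j + 1) ω.1 ∧ GeoAt B w P k0 K n ρ ω.1 j ∧
      HasPsi B w (SDj B P k0 K n j ω.1)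
  /-- the domains decrease -/
  anti : ∀ (F0 : Set (Om (X0 A n).E)) (i j : ℕ), i ≤ j → ∀ ω : Om (X0 A n).E,
    (∀ k, i ≤ k → k < j → ω ∈ gS B k0 n F0 r2 ρ e0 k) → ω ∈ gS B k0 n F0 r1 ρ e0 j →
    GX B (SDj B P k0 K n j ω.1) ⊆ GX B (SDj B P k0 K n i ω.1)
  /-- the moments of several steps -/
  hstep : ∀ (F0 : Set (Om (X0 A n).E)) (i j : ℕ), i < j → ∀ ω : Om (X0 A n).E,
    (∀ k, i ≤ k → k < j → ω ∈ gS B k0 n F0 r2 ρ e0 k) → ω ∈ gS B k0 n F0 r1 ρ e0 j →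
    0 ≤ sa1 (Aj B w P k0 K n i ω) (Aj B w P k0 K n j ω) ∧
    0 ≤ sa3 (Aj B w P k0 K n i ω) (Aj B w P k0 K n j ω) -
      2 * Wj B w P k0 K n i ω * sa2 (Aj B w P k0 K n i ω) (Aj B w P k0 K n j ω) +
      Wj B w P k0 K n i ω ^ 2 * sa1 (Aj B w P k0 K n i ω) (Aj B w P k0 K n j ω) ∧
    (sa2 (Aj B w P k0 K n i ω) (Aj B w P k0 K n j ω) -
      Wj B w P k0 K n i ω * sa1 (Aj B w P k0 K n i ω) (Aj B w P k0 K n j ω)) ^ 2 ≤
      sa1 (Aj B w P k0 K n i ω) (Aj B w P k0 K n j ω) *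
      (sa3 (Aj B w P k0 K n i ω) (Aj B w P k0 K n j ω) -
      2 * Wj B w P k0 K n i ω * sa2 (Aj B w P k0 K n i ω) (Aj B w P k0 K n j ω) +
      Wj B w P k0 K n i ω ^ 2 * sa1 (Aj B w P k0 K n i ω) (Aj B w P k0 K n j ω))

/-! ### Combination of finitely many statements -/

lemma combine {B : Base A r0} {w : Win B} {S : ℕ → Par B → ℕ → ℕ → Prop} {m : ℕ}
    (h : ∀ i < m, ∃ r > 0, ∀ P : Par B, cfat B.o P.BB ⊆ Metric.ball b r → w.M0 ≤ P.M →
      ∃ K1, ∀ K, K1 ≤ K → ∀ᶠ n in atTop, S i P K n) :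
    ∃ r > 0, ∀ P : Par B, cfat B.o P.BB ⊆ Metric.ball b r → w.M0 ≤ P.M →
      ∃ K1, ∀ K, K1 ≤ K → ∀ᶠ n in atTop, ∀ i < m, S i P K n := by
  induction m with
  | zero => exact ⟨1, one_pos, fun P _ _ => ⟨0, fun K _ => Eventually.of_forall fun n i hi => by
      omega⟩⟩
  | succ m ih =>
    obtain ⟨r, hr, h1⟩ := ih fun i hi => h i (by omega)
    obtain ⟨r', hr', h2⟩ := h m (Nat.lt_succ_self m)
    refine ⟨min r r', lt_min hr hr', fun P hP hM => ?_⟩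
    obtain ⟨K1, h1⟩ := h1 P (hP.trans (Metric.ball_subset_ball (min_le_left _ _))) hM
    obtain ⟨K2, h2⟩ := h2 P (hP.trans (Metric.ball_subset_ball (min_le_right _ _))) hM
    refine ⟨max K1 K2, fun K hK => ?_⟩
    filter_upwards [h1 K ((le_max_left _ _).trans hK), h2 K ((le_max_right _ _).trans hK)]
      with n g1 g2 i hi
    rcases Nat.lt_succ_iff_lt_or_eq.1 hi with h3 | h3
    · exact g1 i h3
    · rw [h3]; exact g2

lemma combine_C {S : ℕ → ℝ → ℝ → ℕ → Prop}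
    (hmono : ∀ i C C' e0 n, C ≤ C' → S i C e0 n → S i C' e0 n) {m : ℕ}
    (h : ∀ i < m, ∃ C, ∃ e1 > 0, ∀ e0 > 0, e0 ≤ e1 → ∀ᶠ n in atTop, S i C e0 n) :
    ∃ C, 0 ≤ C ∧ ∃ e1 > 0, ∀ e0 > 0, e0 ≤ e1 → ∀ᶠ n in atTop, ∀ i < m, S i C e0 n := by
  induction m with
  | zero => exact ⟨0, le_rfl, 1, one_pos, fun _ _ _ => Eventually.of_forall fun n i hi => by
      omega⟩
  | succ m ih =>
    obtain ⟨C, hC, e1, he1, h1⟩ := ih fun i hi => h i (by omega)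
    obtain ⟨C', e2, he2, h2⟩ := h m (Nat.lt_succ_self m)
    refine ⟨max C C', hC.trans (le_max_left _ _), min e1 e2, lt_min he1 he2, fun e0 he0 he => ?_⟩
    filter_upwards [h1 e0 he0 (he.trans (min_le_left _ _)), h2 e0 he0 (he.trans (min_le_right _ _))]
      with n g1 g2 i hi
    rcases Nat.lt_succ_iff_lt_or_eq.1 hi with h3 | h3
    · exact hmono _ _ _ _ _ (le_max_left _ _) (g1 i h3)
    · rw [h3]; exact hmono _ _ _ _ _ (le_max_right _ _) g2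

/-! ### Geometry -/

section geo

variable {B : Base A r0} {w : Win B}

lemma p_Sbar : w.p ∈ Sbar B := by
  have h1 := w.dn 0 0 (by rw [abs_zero]; have := w.l0; linarith) le_rfl (by have := w.l0; linarith)
  simp only [Complex.ofReal_zero, zero_mul, sub_zero, add_zero] at h1
  unfold Sbar
  simp only [Set.mem_iUnion]
  exact ⟨w.M0, w.q, w.hq, h1⟩

end geo

/-! ### The observable after a bad step -/

section bad

variable {B : Base A r0} {w : Win B} {k0 n : ℕ}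

/-- The Markov property for the chain of the base. -/
theorem markovX {j : ℕ} {Y : Om (X0 A n).E → ℝ} (hY : AdX B k0 n j Y)
    (g : DEnv → Finset (ℤ × ℤ) → ℝ) :
    ∫ ω, Y ω * g (B.X k0 n (j + 1) ω.1) ((B.rules k0 n).cf (j + 1) (X0 A n) ω.1)
        ∂PO (X0 A n).E =
      ∫ ω, Y ω * EX (B.X k0 n (j + 1) ω.1).E (g (B.X k0 n (j + 1) ω.1)) ∂PO (X0 A n).E :=
  markov_test hY g

/-- Integral over a large step. -/
lemma int_large {c : ℝ} {i : ℤ} {e0 p : ℝ}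
    {far : Om (X0 A n).E → Prop} {j : ℕ}
    (h : ∀ ω : Om (X0 A n).E, far ω →
      EX (B.X k0 n (j + 1) ω.1).E (fun η => ind (Large B k0 n e0 (B.X k0 n (j + 1) ω.1) η) *
        w.h n i ((B.rules k0 n).nenv (B.X k0 n (j + 1) ω.1) η)) / p ≤
      c * Pr (B.X k0 n (j + 1) ω.1).E (Large B k0 n e0 (B.X k0 n (j + 1) ω.1)))
    {S : Set (Om (X0 A n).E)} (hS : AdX B k0 n j (fun ω => ω ∈ S)) (hSf : ∀ ω ∈ S, far ω) :
    ∫ ω in S ∩ {ω | Lrg B k0 n e0 (j + 1) ω.1}, w.h n i (B.X k0 n (j + 2) ω.1) / p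
        ∂PO (X0 A n).E ≤
      c * (PO (X0 A n).E).real (S ∩ {ω | Lrg B k0 n e0 (j + 1) ω.1}) := by
  classical
  set Y : Om (X0 A n).E → ℝ := S.indicator (fun _ => 1) with hY
  have hYad : AdX B k0 n j Y := by
    intro ω ω' h1
    have h2 := hS ω ω' h1
    simp only [eq_iff_iff] at h2
    rw [hY]
    by_cases h3 : ω ∈ S
    · rw [Set.indicator_of_mem h3, Set.indicator_of_mem (h2.1 h3)]
    · rw [Set.indicator_of_notMem h3, Set.indicator_of_notMem fun h4 => h3 (h2.2 h4)]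
  set g : DEnv → Finset (ℤ × ℤ) → ℝ := fun Z η => ind (Large B k0 n e0 Z η) *
    w.h n i ((B.rules k0 n).nenv Z η) / p with hg
  set g' : DEnv → Finset (ℤ × ℤ) → ℝ := fun Z η => ind (Large B k0 n e0 Z η) with hg'
  have m1 := markovX hYad g
  have m2 := markovX hYad g'
  have e1 : ∀ ω : Om (X0 A n).E, Y ω * g (B.X k0 n (j + 1) ω.1)
      ((B.rules k0 n).cf (j + 1) (X0 A n) ω.1) =
      (S ∩ {ω | Lrg B k0 n e0 (j + 1) ω.1}).indicator
        (fun ω => w.h n i (B.X k0 n (j + 2) ω.1) / p) ω := by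
    intro ω
    have hL := lrg_iff (B := B) (k0 := k0) ω.sub e0 (j + 1)
    have hX : B.X k0 n (j + 2) ω.1 = (B.rules k0 n).nenv (B.X k0 n (j + 1) ω.1)
        ((B.rules k0 n).cf (j + 1) (X0 A n) ω.1) := Rules.st_last _ _ _ _
    by_cases h3 : ω ∈ S
    · by_cases h4 : Lrg B k0 n e0 (j + 1) ω.1
      · rw [Set.indicator_of_mem (show ω ∈ S ∩ {ω | Lrg B k0 n e0 (j + 1) ω.1} from ⟨h3, h4⟩), hY,
          Set.indicator_of_mem h3, hg]
        simp only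
        rw [ind_true (hL.1 h4), one_mul, one_mul, hX]
      · rw [Set.indicator_of_notMem (fun h5 => h4 h5.2), hY, Set.indicator_of_mem h3, hg]
        simp only
        rw [ind_false (fun h5 => h4 (hL.2 h5)), zero_mul, zero_div, mul_zero]
    · rw [Set.indicator_of_notMem (fun h5 => h3 h5.1), hY, Set.indicator_of_notMem h3, zero_mul]
  have e2 : ∀ ω : Om (X0 A n).E, Y ω * g' (B.X k0 n (j + 1) ω.1)
      ((B.rules k0 n).cf (j + 1) (X0 A n) ω.1) =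
      (S ∩ {ω | Lrg B k0 n e0 (j + 1) ω.1}).indicator (fun _ => (1 : ℝ)) ω := by
    intro ω
    have hL := lrg_iff (B := B) (k0 := k0) ω.sub e0 (j + 1)
    by_cases h3 : ω ∈ S
    · by_cases h4 : Lrg B k0 n e0 (j + 1) ω.1
      · rw [Set.indicator_of_mem (show ω ∈ S ∩ {ω | Lrg B k0 n e0 (j + 1) ω.1} from ⟨h3, h4⟩), hY,
          Set.indicator_of_mem h3, hg']
        simp only
        rw [one_mul]
        exact ind_true (hL.1 h4)
      · rw [Set.indicator_of_notMem (fun h5 => h4 h5.2), hY, Set.indicator_of_mem h3, hg']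
        simp only
        rw [one_mul]
        exact ind_false (fun h5 => h4 (hL.2 h5))
    · rw [Set.indicator_of_notMem (fun h5 => h3 h5.1), hY, Set.indicator_of_notMem h3, zero_mul]
  rw [← integral_indicator MeasurableSet.of_discrete]
  have e3 : (PO (X0 A n).E).real (S ∩ {ω | Lrg B k0 n e0 (j + 1) ω.1}) =
      ∫ ω, (S ∩ {ω | Lrg B k0 n e0 (j + 1) ω.1}).indicator (fun _ => (1 : ℝ)) ω
        ∂PO (X0 A n).E := by
    rw [integral_indicator MeasurableSet.of_discrete, integral_const, smul_eq_mul, mul_one,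
      measureReal_restrict_apply_univ]
  rw [e3, ← integral_const_mul]
  simp only [← e1, ← e2]
  rw [m1, integral_const_mul, m2, ← integral_const_mul]
  refine integral_mono (integrable_PO _) (integrable_PO _) fun ω => ?_
  simp only
  by_cases h3 : ω ∈ S
  · rw [hY, Set.indicator_of_mem h3, one_mul, one_mul]
    have h4 := h ω (hSf ω h3)
    have h5 : EX (B.X k0 n (j + 1) ω.1).E (g (B.X k0 n (j + 1) ω.1)) =
        EX (B.X k0 n (j + 1) ω.1).E (fun η => ind (Large B k0 n e0 (B.X k0 n (j + 1) ω.1) η) *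
        w.h n i ((B.rules k0 n).nenv (B.X k0 n (j + 1) ω.1) η)) / p := by
      rw [div_eq_inv_mul, ← EX_smul]
      congr 1
      funext η
      rw [hg]
      simp only
      rw [div_eq_inv_mul]
    have h6 : EX (B.X k0 n (j + 1) ω.1).E (g' (B.X k0 n (j + 1) ω.1)) =
        Pr (B.X k0 n (j + 1) ω.1).E (Large B k0 n e0 (B.X k0 n (j + 1) ω.1)) := by
      rw [Pr_eq_EX]
    have h7 := h4
    rw [← h5, ← h6] at h7
    exact h7
  · rw [hY, Set.indicator_of_notMem h3, zero_mul, zero_mul, mul_zero]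

end bad

/-! ### The fields -/

/-- Pointwise hypotheses. -/
structure Inp (B : Base A r0) (w : Win B) (P : Par B) (k0 K n : ℕ) (pz : ℝ → ℝ) (C0 : ℝ)
    (q : ℤ) (r1 ρ e0 C ε : ℝ) : Prop where
  hC0 : 0 < C0
  hC : 0 ≤ C
  hr0 : r0 < r1
  hε : 0 ≤ ε
  hρ : 0 < ρ
  hpz : 0 < pz (A.δ n)⁻¹
  hδ : A.δ n ≤ (r1 - r0) / 2
  hK : w.k1 ≤ K
  hl2 : 2 * w.l ≤ r1 - r0
  hu : ∀ i : ℕ, i < 5 → ∀ (k0 j : ℕ) (ω : Finset (ℤ × ℤ)), ω ⊆ (X0 A n).E →
    FreshS B n ((r1 - r0) / 2) (B.X k0 n j ω) →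
      w.h n (q * (i + 1)) (B.X k0 n j ω) / pz (A.δ n)⁻¹ ≤ C
  hb : ∀ i : ℕ, i < 5 → ∀ (k0 j : ℕ) (ω : Finset (ℤ × ℤ)), ω ⊆ (X0 A n).E →
    FarS B n (r1 - r0) k0 j ω →
    EX (B.X k0 n j ω).E (fun η => ind (Large B k0 n e0 (B.X k0 n j ω) η) *
      w.h n (q * (i + 1)) ((B.rules k0 n).nenv (B.X k0 n j ω) η)) / pz (A.δ n)⁻¹ ≤
    C * Pr (B.X k0 n j ω).E (Large B k0 n e0 (B.X k0 n j ω))
  ho : ∀ i : ℕ, i < 5 → ∀ ω, ω ⊆ (X0 A n).E → ∀ j, Adm w n ρ k0 (j + 1) ω →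
    |w.h n (q * (i + 1)) (B.X k0 n (j + 1) ω) / pz (A.δ n)⁻¹ -
      C0 * kap (AX B w (SDj B P k0 K n j ω)) (WX B w (SDj B P k0 K n j ω))
        ((i + 1) * (q * mesh (w.k1 + 1)))| ≤ C0 * ε
  hg : ∀ ω, ω ⊆ (X0 A n).E → ∀ j, Adm w n ρ k0 (j + 1) ω →
    GeoAt B w P k0 K n ρ ω j

namespace Inp

variable {B : Base A r0} {w : Win B} {P : Par B} {k0 K n : ℕ} {pz : ℝ → ℝ} {C0 : ℝ}
    {q : ℤ} {r1 r2 ρ e0 C ε : ℝ}

lemma geo (h : Inp B w P k0 K n pz C0 q r1 ρ e0 C ε) {F0 : Set (Om (X0 A n).E)} {j : ℕ}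
    {ω : Om (X0 A n).E} (hω : ω ∈ gS B k0 n F0 r1 ρ e0 j) :
    Adm w n ρ k0 (j + 1) ω.1 ∧ GeoAt B w P k0 K n ρ ω.1 j ∧
      HasPsi B w (SDj B P k0 K n j ω.1) ∧ |WX B w (SDj B P k0 K n j ω.1)| ≤ 11 / w.l := by
  have h1 := adm_of_gS h.hl2 hω
  have h2 := h.hg ω.1 ω.sub j h1
  obtain ⟨nb, hb⟩ := h2.nb
  have h3 : HasPsi B w (SDj B P k0 K n j ω.1) := hasPsi hb h.hK h2.box
  exact ⟨h1, h2, h3, WX_bound hb h.hK h3 h2.far⟩

lemma Mj_nonneg (h : Inp B w P k0 K n pz C0 q r1 ρ e0 C ε) (j i : ℕ) (ω : Om (X0 A n).E) :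
    0 ≤ Mj B w k0 n pz C0 q j i ω :=
  div_nonneg (div_nonneg (h_nonneg _ _) h.hpz.le) h.hC0.le

/-- Bound of the observables on far states. -/
lemma Mj_le (h : Inp B w P k0 K n pz C0 q r1 ρ e0 C ε) {j i : ℕ} (hi : i ≤ 4)
    {ω : Om (X0 A n).E} (hf : ∀ t ≤ B.T k0 n (j + 1) ω.1, r1 ≤ dist (gp A n ω.1 t) b) :
    |Mj B w k0 n pz C0 q j i ω| ≤ C / C0 := by
  rw [abs_of_nonneg (h.Mj_nonneg j i ω)]
  unfold Mj
  refine div_le_div_of_nonneg_right (h.hu i (by omega) k0 (j + 1) ω.1 ω.sub ?_) h.hC0.le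
  refine freshS_mono (freshS_of ω.sub (farS_of hf)) ?_
  have := h.hδ
  linarith

lemma obs (h : Inp B w P k0 K n pz C0 q r1 ρ e0 C ε) {F0 : Set (Om (X0 A n).E)} {j i : ℕ}
    (hi : i ≤ 4) {ω : Om (X0 A n).E} (hω : ω ∈ gS B k0 n F0 r1 ρ e0 j) :
    |Mj B w k0 n pz C0 q j i ω - kap (Aj B w P k0 K n j ω) (Wj B w P k0 K n j ω)
      (((i : ℝ) + 1) * (q * mesh (w.k1 + 1)))| ≤ ε := by
  have h1 := h.ho i (by omega) ω.1 ω.sub j (h.geo hω).1
  have h2 : Mj B w k0 n pz C0 q j i ω - kap (Aj B w P k0 K n j ω) (Wj B w P k0 K n j ω)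
      (((i : ℝ) + 1) * (q * mesh (w.k1 + 1))) =
      (w.h n (q * (i + 1)) (B.X k0 n (j + 1) ω.1) / pz (A.δ n)⁻¹ -
      C0 * kap (AX B w (SDj B P k0 K n j ω.1)) (WX B w (SDj B P k0 K n j ω.1))
        ((i + 1) * (q * mesh (w.k1 + 1)))) / C0 := by
    have := h.hC0.ne'
    unfold Mj Aj Wj
    field_simp
  rw [h2, abs_div, abs_of_pos h.hC0, div_le_iff₀ h.hC0, mul_comm ε]
  exact h1

lemma anti (h : Inp B w P k0 K n pz C0 q r1 ρ e0 C ε) (hr : r1 ≤ r2)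
    {F0 : Set (Om (X0 A n).E)} {i j : ℕ} (hij : i ≤ j) {ω : Om (X0 A n).E}
    (hb : ∀ k, i ≤ k → k < j → ω ∈ gS B k0 n F0 r2 ρ e0 k) (hω : ω ∈ gS B k0 n F0 r1 ρ e0 j) :
    GX B (SDj B P k0 K n j ω.1) ⊆ GX B (SDj B P k0 K n i ω.1) := by
  induction j with
  | zero => rw [Nat.le_zero.1 hij]
  | succ j ih =>
    rcases Nat.lt_or_ge i (j + 1) with h1 | h1
    · have h2 := gS_anti hr j (hb j (by omega) (by omega))
      have h3 := ih (by omega) (fun k hk hk' => hb k hk (by omega)) h2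
      exact ((h.geo h2).2.1.anti (h.geo hω).1).trans h3
    · have : i = j + 1 := by omega
      rw [this]

lemma hstep (h : Inp B w P k0 K n pz C0 q r1 ρ e0 C ε) (hr : r1 ≤ r2)
    {F0 : Set (Om (X0 A n).E)} {i j : ℕ} (hij : i < j) {ω : Om (X0 A n).E}
    (hb : ∀ k, i ≤ k → k < j → ω ∈ gS B k0 n F0 r2 ρ e0 k) (hω : ω ∈ gS B k0 n F0 r1 ρ e0 j)
    (W : ℝ) :
    0 ≤ sa1 (Aj B w P k0 K n i ω) (Aj B w P k0 K n j ω) ∧
    0 ≤ sa3 (Aj B w P k0 K n i ω) (Aj B w P k0 K n j ω) -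
      2 * W * sa2 (Aj B w P k0 K n i ω) (Aj B w P k0 K n j ω) +
      W ^ 2 * sa1 (Aj B w P k0 K n i ω) (Aj B w P k0 K n j ω) ∧
    (sa2 (Aj B w P k0 K n i ω) (Aj B w P k0 K n j ω) -
      W * sa1 (Aj B w P k0 K n i ω) (Aj B w P k0 K n j ω)) ^ 2 ≤
      sa1 (Aj B w P k0 K n i ω) (Aj B w P k0 K n j ω) *
      (sa3 (Aj B w P k0 K n i ω) (Aj B w P k0 K n j ω) -
      2 * W * sa2 (Aj B w P k0 K n i ω) (Aj B w P k0 K n j ω) +
      W ^ 2 * sa1 (Aj B w P k0 K n i ω) (Aj B w P k0 K n j ω)) := by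
  have h1 := gS_anti hr i (hb i le_rfl hij)
  have h2 := h.anti hr hij.le hb hω
  refine step_moments (psiX_spec (h.geo h1).2.2.1) (psiX_spec (h.geo hω).2.2.1) ?_ W
  intro u hu
  exact h2 hu

lemma hbad (h : Inp B w P k0 K n pz C0 q r1 ρ e0 C ε) (he0 : 0 ≤ e0) (hr : r1 + e0 ≤ r2)
    {F0 : Set (Om (X0 A n).E)} (hF : AdX B k0 n 0 (fun ω => ω ∈ F0)) (j : ℕ) {i : ℕ} (hi : i ≤ 4)
    {S : Set (Om (X0 A n).E)} (hS : MeasurableSet[FX B k0 n j] S)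
    (hSb : S ⊆ gS B k0 n F0 r2 ρ e0 j) :
    ∫ ω in S \ gS B k0 n F0 r1 ρ e0 (j + 1), |Mj B w k0 n pz C0 q (j + 1) i ω| ∂PO (X0 A n).E ≤
      C / C0 * (PO (X0 A n).E).real (S \ gS B k0 n F0 r1 ρ e0 (j + 1)) := by
  have _ := hF
  set L : Set (Om (X0 A n).E) := {ω | Lrg B k0 n e0 (j + 1) ω.1} with hL
  set U : Set (Om (X0 A n).E) := S \ gS B k0 n F0 r1 ρ e0 (j + 1) with hU
  have hSad : AdX B k0 n j (fun ω => ω ∈ S) := by
    refine ad_of_meas (β := Prop) ?_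
    exact measurable_to_prop (by simpa using hS)
  have e1 : U ∩ L = S ∩ L := by
    ext ω
    constructor
    · rintro ⟨h1, h2⟩; exact ⟨h1.1, h2⟩
    · rintro ⟨h1, h2⟩
      exact ⟨⟨h1, fun h3 => h3.2.2.2 (j + 1) (by omega) le_rfl h2⟩, h2⟩
  have far1 : ∀ ω ∈ S, ∀ t ≤ B.T k0 n (j + 1) ω.1, r2 ≤ dist (gp A n ω.1 t) b :=
    fun ω hω => (hSb hω).2.1
  have far2 : ∀ ω ∈ U \ L, ∀ t ≤ B.T k0 n (j + 2) ω.1, r1 ≤ dist (gp A n ω.1 t) b := by
    intro ω hω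
    exact far_step (far1 ω hω.1.1) hω.2 hr he0
  have e2 : ∫ ω in U, |Mj B w k0 n pz C0 q (j + 1) i ω| ∂PO (X0 A n).E =
      ∫ ω in U ∩ L, |Mj B w k0 n pz C0 q (j + 1) i ω| ∂PO (X0 A n).E +
      ∫ ω in U \ L, |Mj B w k0 n pz C0 q (j + 1) i ω| ∂PO (X0 A n).E :=
    (integral_inter_add_sdiff MeasurableSet.of_discrete (integrable_PO _).integrableOn).symm
  have e3 : (PO (X0 A n).E).real U = (PO (X0 A n).E).real (U ∩ L) +
      (PO (X0 A n).E).real (U \ L) :=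
    (measureReal_inter_add_sdiff MeasurableSet.of_discrete).symm
  have b1 : ∫ ω in U ∩ L, |Mj B w k0 n pz C0 q (j + 1) i ω| ∂PO (X0 A n).E ≤
      C / C0 * (PO (X0 A n).E).real (U ∩ L) := by
    rw [e1]
    have h1 := int_large (B := B) (w := w) (k0 := k0) (n := n) (c := C) (i := q * (i + 1))
      (e0 := e0) (p := pz (A.δ n)⁻¹)
      (far := fun ω => ∀ t ≤ B.T k0 n (j + 1) ω.1, r2 ≤ dist (gp A n ω.1 t) b) (j := j)
      (fun ω hω => h.hb i (by omega) k0 (j + 1) ω.1 ω.sub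
        (farS_of fun t ht => le_trans (by linarith) (hω t ht))) hSad far1
    have h2 : ∀ ω, |Mj B w k0 n pz C0 q (j + 1) i ω| =
        C0⁻¹ * (w.h n (q * (i + 1)) (B.X k0 n (j + 2) ω.1) / pz (A.δ n)⁻¹) := by
      intro ω
      rw [abs_of_nonneg (h.Mj_nonneg _ _ _)]
      unfold Mj
      rw [div_eq_inv_mul]
    simp only [h2]
    rw [integral_const_mul]
    calc C0⁻¹ * ∫ ω in S ∩ L, w.h n (q * (i + 1)) (B.X k0 n (j + 2) ω.1) / pz (A.δ n)⁻¹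
          ∂PO (X0 A n).E ≤ C0⁻¹ * (C * (PO (X0 A n).E).real (S ∩ L)) :=
          mul_le_mul_of_nonneg_left h1 (inv_nonneg.2 h.hC0.le)
      _ = C / C0 * (PO (X0 A n).E).real (S ∩ L) := by rw [div_eq_mul_inv]; ring
  have b2 : ∫ ω in U \ L, |Mj B w k0 n pz C0 q (j + 1) i ω| ∂PO (X0 A n).E ≤
      C / C0 * (PO (X0 A n).E).real (U \ L) := by
    have h1 : ∫ ω in U \ L, |Mj B w k0 n pz C0 q (j + 1) i ω| ∂PO (X0 A n).E ≤
        ∫ ω in U \ L, C / C0 ∂PO (X0 A n).E :=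
      setIntegral_mono_on (integrable_PO _).integrableOn (integrable_PO _).integrableOn
        MeasurableSet.of_discrete fun ω hω => h.Mj_le hi (far2 ω hω)
    rw [setIntegral_const, smul_eq_mul, mul_comm] at h1
    exact h1
  rw [e2, e3, mul_add]
  exact add_le_add b1 b2

/-- All the fields. -/
theorem microAt (h : Inp B w P k0 K n pz C0 q r1 ρ e0 C ε) (he0 : 0 ≤ e0) (hr : r1 + e0 ≤ r2) :
    MicroAt B w P k0 K n pz C0 q r1 r2 ρ e0 (C / C0) ε where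
  chn J al0 al F0 hal hal0 had hF := by
    have hr12 : r1 ≤ r2 := by linarith
    exact
    { eps0 := h.hε
      al_nonneg := hal
      al_le := hal0
      mal := had.meas
      bg := fun j => gS_anti hr12 j
      mg := fun j => (ad_gS hF r1 ρ e0 j).set
      mb := fun j => (ad_gS hF r2 ρ e0 j).set
      mW := fun j => (ad_Wj j).meas
      mr := fun j m => ((ad_Aj j).comp (fun f => rc f m)).meas
      mkc := fun j m => ((ad_Aj j).comp2 (ad_Wj j) (fun f x => kc f x m)).meas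
      mkap := fun j u => ((ad_Aj j).comp2 (ad_Wj j) (fun f x => kap f x u)).meas
      germ := fun j _ ω hω => psi_germ (psiX_spec (h.geo hω).2.2.1)
      bdW := fun j _ ω hω => (h.geo hω).2.2.2
      iM := fun j _ i _ => integrable_PO _
      mart := fun j _ i _ Y hY _ _ => Mj_mart pz C0 q j i (ad_of_meas hY)
      obs := fun j _ i hi ω hω => h.obs hi hω
      bad := fun j _ i hi => Finset.single_le_sum
        (f := fun i => ∫ ω in gS B k0 n F0 r2 ρ e0 j \ gS B k0 n F0 r1 ρ e0 (j + 1),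
          |Mj B w k0 n pz C0 q (j + 1) i ω - Mj B w k0 n pz C0 q j i ω| ∂PO (X0 A n).E)
        (fun i _ => integral_nonneg fun ω => abs_nonneg _) (Finset.mem_range.2 (by omega))
      step := by
        rintro j _ ω ⟨hb, hg⟩
        have h1 := h.hstep hr12 (Nat.lt_succ_self j) (ω := ω)
          (fun k hk hk' => by
            have : k = j := by omega
            rw [this]; exact hb) hg (Wj B w P k0 K n j ω)
        have e3 : Pool.Agent.H66.M7.a3 (Aj B w P k0 K n) j ω =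
            sa3 (Aj B w P k0 K n j ω) (Aj B w P k0 K n (j + 1) ω) := by
          unfold Pool.Agent.H66.M7.a3 Pool.Agent.H66.M7.a1 sa3
          ring
        have e2 : Pool.Agent.H66.M7.a2 (Aj B w P k0 K n) j ω =
            sa2 (Aj B w P k0 K n j ω) (Aj B w P k0 K n (j + 1) ω) := rfl
        have e1 : Pool.Agent.H66.M7.a1 (Aj B w P k0 K n) j ω =
            sa1 (Aj B w P k0 K n j ω) (Aj B w P k0 K n (j + 1) ω) := rfl
        unfold Pool.Agent.H66.M7.m2 Pool.Agent.H66.M7.m1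
        rw [e1, e2, e3]
        exact h1 }
  hM F0 j i hi ω hω := h.Mj_le hi hω.2.1
  hbad F0 hF j i hi S hS hSb := h.hbad he0 hr hF j hi hS hSb
  geo F0 j ω hω := ⟨(h.geo hω).1, (h.geo hω).2.1, (h.geo hω).2.2.1⟩
  anti F0 i j hij ω hb hω := h.anti (by linarith) hij hb hω
  hstep F0 i j hij ω hb hω := h.hstep (by linarith) hij hb hω _

end Inp

/-! ### The theorem -/

/-- **The micro chain.** -/
theorem micro {pz : ℝ → ℝ} {C0 : ℝ} (hD : IsJordanDomain D) (hab : a ≠ b)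
    (hA : IsArcs D a b A₁ A₂) (hC0 : 0 < C0) (hpz : ∀ᶠ n in atTop, 0 < pz (A.δ n)⁻¹)
    {B : Base A r0} {w : Win B} (hS : w.Side) (hO : StObs B w pz C0) (hG : StGeo B w)
    (hU : StUnif B w pz) (hB : StBad B w pz) {r1 : ℝ} (hl2 : 2 * w.l ≤ r1 - r0) {q : ℤ} (hq : 0 < q)
    (hql : 5 * (q * mesh (w.k1 + 1)) < w.l) :
    ∃ C, 0 ≤ C ∧ ∃ e1 > 0, ∀ e0 > 0, e0 ≤ e1 → ∀ k0, B.qb.1 ≤ k0 → w.q.1 ≤ k0 → ∀ ρ > 0,
      ∀ ε > 0, ∃ r > 0, ∀ P : Par B, cfat B.o P.BB ⊆ Metric.ball b r → w.M0 ≤ P.M →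
      ∃ K1, ∀ K, K1 ≤ K → ∀ᶠ n in atTop, ∀ r2, r1 + e0 ≤ r2 →
        MicroAt B w P k0 K n pz C0 q r1 r2 ρ e0 C ε := by
  have hρf : 0 < r1 - r0 := by linarith [w.l0]
  have hqr : (0 : ℝ) < q := by exact_mod_cast hq
  have hs0 : (0 : ℝ) < q * mesh (w.k1 + 1) := mul_pos hqr (mesh_pos _)
  have node : ∀ i : ℕ, i < 5 → 0 < q * ((i : ℤ) + 1) ∧
      ((q * ((i : ℤ) + 1) : ℤ) : ℝ) * mesh (w.k1 + 1) < w.l ∧
      ((q * ((i : ℤ) + 1) : ℤ) : ℝ) * mesh (w.k1 + 1) = (i + 1) * (q * mesh (w.k1 + 1)) := by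
    intro i hi
    have e1 : ((q * ((i : ℤ) + 1) : ℤ) : ℝ) * mesh (w.k1 + 1) =
        (i + 1) * (q * mesh (w.k1 + 1)) := by push_cast; ring
    have hi' : (i : ℝ) + 1 ≤ 5 := by
      have : (i : ℝ) ≤ 4 := by exact_mod_cast (by omega : i ≤ 4)
      linarith
    refine ⟨by positivity, ?_, e1⟩
    rw [e1]
    exact lt_of_le_of_lt (mul_le_mul_of_nonneg_right hi' hs0.le) hql
  -- constants
  obtain ⟨C, hC, e1, he1, H1⟩ := combine_C (m := 5)
    (S := fun i C e0 n =>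
      (∀ (k0 j : ℕ) (ω : Finset (ℤ × ℤ)), ω ⊆ (X0 A n).E →
        FreshS B n ((r1 - r0) / 2) (B.X k0 n j ω) →
        w.h n (q * (i + 1)) (B.X k0 n j ω) / pz (A.δ n)⁻¹ ≤ C) ∧
      (∀ (k0 j : ℕ) (ω : Finset (ℤ × ℤ)), ω ⊆ (X0 A n).E → FarS B n (r1 - r0) k0 j ω →
        EX (B.X k0 n j ω).E (fun η => ind (Large B k0 n e0 (B.X k0 n j ω) η) *
          w.h n (q * (i + 1)) ((B.rules k0 n).nenv (B.X k0 n j ω) η)) / pz (A.δ n)⁻¹ ≤
        C * Pr (B.X k0 n j ω).E (Large B k0 n e0 (B.X k0 n j ω))))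
    (fun i C C' e0 n hCC hS => ⟨fun k0 j ω hω hF => (hS.1 k0 j ω hω hF).trans hCC,
      fun k0 j ω hω hF => (hS.2 k0 j ω hω hF).trans (mul_le_mul_of_nonneg_right hCC (by
        rw [Pr_eq_EX]; exact EX_nonneg fun _ _ => ind_nonneg _))⟩)
    (fun i hi => by
      obtain ⟨n1, n2, -⟩ := node i hi
      obtain ⟨C, h1⟩ := hU ((r1 - r0) / 2) (by linarith) _ n1 n2
      obtain ⟨C', e1, he1, h2⟩ := hB (r1 - r0) hρf _ n1 n2
      refine ⟨max C C', e1, he1, fun e0 he0 he => ?_⟩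
      filter_upwards [h1, h2 e0 he0 he] with n g1 g2
      exact ⟨fun k0 j ω hω hF => (g1 k0 j ω hω hF).trans (le_max_left _ _),
        fun k0 j ω hω hF => (g2 k0 j ω hω hF).trans
          (mul_le_mul_of_nonneg_right (le_max_right _ _) (by
        rw [Pr_eq_EX]; exact EX_nonneg fun _ _ => ind_nonneg _))⟩)
  refine ⟨C / C0, div_nonneg hC hC0.le, e1, he1, ?_⟩
  intro e0 he0 he k0 hk0 hwk ρ hρ ε hε
  obtain ⟨r, hr, H2⟩ := combine (B := B) (w := w) (m := 5)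
    (S := fun i P K n => ∀ ω, ω ⊆ (X0 A n).E → ∀ j, Adm w n ρ k0 (j + 1) ω →
      |w.h n (q * (i + 1)) (B.X k0 n (j + 1) ω) / pz (A.δ n)⁻¹ -
        C0 * kap (AX B w (SDj B P k0 K n j ω)) (WX B w (SDj B P k0 K n j ω))
          ((i + 1) * (q * mesh (w.k1 + 1)))| ≤ C0 * ε)
    (fun i hi => by
      obtain ⟨n1, n2, n3⟩ := node i hi
      obtain ⟨r, hr, h1⟩ := obs_kap hD hab hA hS hO hG k0 hk0 hwk _ hρ (C0 * ε) (by positivity)
        _ n1 n2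
      refine ⟨r, hr, fun P hP hM => ?_⟩
      obtain ⟨K1, h1⟩ := h1 P hP hM
      refine ⟨K1, fun K hK => ?_⟩
      filter_upwards [h1 K hK] with n g1 ω hω j hAd
      have g2 := g1 ω hω j hAd
      rw [n3] at g2
      exact g2)
  obtain ⟨r', hr', H3⟩ := hG hD hab hA hS k0 hk0 hwk _ hρ
  refine ⟨min r r', lt_min hr hr', fun P hP hM => ?_⟩
  obtain ⟨K1, H2⟩ := H2 P (hP.trans (Metric.ball_subset_ball (min_le_left _ _))) hM
  obtain ⟨K2, H3⟩ := H3 P (hP.trans (Metric.ball_subset_ball (min_le_right _ _))) hM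
  refine ⟨max (max K1 K2) w.k1, fun K hK => ?_⟩
  have hK1 : K1 ≤ K := ((le_max_left _ _).trans (le_max_left _ _)).trans hK
  have hK2 : K2 ≤ K := ((le_max_right _ _).trans (le_max_left _ _)).trans hK
  have hK4 : w.k1 ≤ K := (le_max_right _ _).trans hK
  filter_upwards [hpz, A.lim.eventually_le_const (show (0 : ℝ) < (r1 - r0) / 2 by linarith),
    H1 e0 he0 he, H2 K hK1, H3 K hK2] with n g1 g2 g3 g4 g5 r2 hr2
  have hI : Inp B w P k0 K n pz C0 q r1 ρ e0 C ε :=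
    { hC0 := hC0
      hC := hC
      hr0 := by linarith
      hε := hε.le
      hρ := hρ
      hpz := g1
      hδ := g2
      hK := hK4
      hl2 := hl2
      hu := fun i hi => (g3 i hi).1
      hb := fun i hi => (g3 i hi).2
      ho := fun i hi => g4 i hi
      hg := g5 }
  exact hI.microAt he0.le hr2

end Pool.Agent.H4.Q1.M7
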