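import Mathlib
import Pool.Agent.H4.Q1.M7.Micro2
import Pool.Agent.H66.M7.Array

set_option autoImplicit false
open Finset Filter Topology MeasureTheory ProbabilityTheory

/-! # The micro chain: all steps are small -/

namespace Pool.Agent.H4.Q1.M7

open Pool.Agent.H75.Perc Pool.Agent.H75.TwoArm Pool.Agent.H75.Four Pool.Agent.H69.Q1
open Pool.Agent.H99.NC
open Pool.Agent.H81.Q1 (pt DDomain Approx IsJordanDomain IsArcs)
open Pool.Agent.Q1.M3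
open Pool.Agent.Q1.M3.Pg (SD LX gx lo)
open Pool.Agent.H82.Q1.M7
open Pool.Agent.H83.M7
open Pool.Agent.H66.M7 (Germ rc kap kc Chn ws ts Stp On small_step)
open H37.Levy (Lg)

variable {D : Set ℂ} {a b : ℂ} {A₁ A₂ : Set ℂ} {A : Approx D a b A₁ A₂} {r0 : ℝ}

/-- Steps which are not large change the observables little. -/
theorem micro_jump {pz : ℝ → ℝ} {C0 : ℝ} (hC0 : 0 < C0)
    (hpz : ∀ᶠ n in atTop, 0 < pz (A.δ n)⁻¹) {B : Base A r0} {w : Win B} (hJ : StJump B w pz) {r1 : ℝ} (hr1 : r0 < r1) {q : ℤ} (hq : 0 < q)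
    (hql : 5 * (q * mesh (w.k1 + 1)) < w.l) {ε1 : ℝ} (hε : 0 < ε1) :
    ∃ e2 > 0, ∀ᶠ n in atTop, ∀ (k0 : ℕ) (F0 : Set (Om (X0 A n).E)) (ρ e0 : ℝ), e0 ≤ e2 →
      ∀ j i : ℕ, i ≤ 4 → ∀ ω ∈ gS B k0 n F0 r1 ρ e0 (j + 1),
        |Mj B w k0 n pz C0 q (j + 1) i ω - Mj B w k0 n pz C0 q j i ω| ≤ ε1 := by
  have hρf : 0 < r1 - r0 := sub_pos.2 hr1
  have hqr : (0 : ℝ) < q := by exact_mod_cast hq
  have hs0 : (0 : ℝ) < q * mesh (w.k1 + 1) := mul_pos hqr (mesh_pos _)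
  have key : ∀ m : ℕ, m ≤ 5 → ∃ e2 > 0, ∀ᶠ n in atTop, ∀ i : ℕ, i < m →
      ∀ (k0 j : ℕ) (ω : Finset (ℤ × ℤ)), ω ⊆ (X0 A n).E →
      FreshS B n ((r1 - r0) / 2) (B.X k0 n (j + 1) ω) →
      (∀ t, B.T k0 n j ω ≤ t → t ≤ B.T k0 n (j + 1) ω →
        dist (pt (A.δ n) (vx ((X0 A n).cor ω t)))
          (pt (A.δ n) (vx ((X0 A n).cor ω (B.T k0 n j ω)))) ≤ e2) →
      |w.h n (q * (i + 1)) (B.X k0 n (j + 1) ω) - w.h n (q * (i + 1)) (B.X k0 n j ω)| /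
        pz (A.δ n)⁻¹ ≤ C0 * ε1 := by
    intro m
    induction m with
    | zero => exact fun _ => ⟨1, one_pos, Eventually.of_forall fun n i hi => by omega⟩
    | succ m ih =>
      intro hm
      obtain ⟨e2, he2, h1⟩ := ih (by omega)
      have e1 : ((q * ((m : ℤ) + 1) : ℤ) : ℝ) * mesh (w.k1 + 1) =
          (m + 1) * (q * mesh (w.k1 + 1)) := by push_cast; ring
      have hi' : (m : ℝ) + 1 ≤ 5 := by exact_mod_cast hm
      obtain ⟨e3, he3, h2⟩ := hJ ((r1 - r0) / 2) (by linarith) (C0 * ε1) (by positivity)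
        (q * ((m : ℤ) + 1)) (by positivity) (by
          rw [e1]
          exact lt_of_le_of_lt (mul_le_mul_of_nonneg_right hi' hs0.le) hql)
      refine ⟨min e2 e3, lt_min he2 he3, ?_⟩
      filter_upwards [h1, h2] with n g1 g2 i hi k0 j ω hω hF ht
      rcases Nat.lt_succ_iff_lt_or_eq.1 hi with h3 | h3
      · exact g1 i h3 k0 j ω hω hF fun t ht1 ht2 => (ht t ht1 ht2).trans (min_le_left _ _)
      · rw [h3]
        exact g2 k0 j ω hω hF fun t ht1 ht2 => (ht t ht1 ht2).trans (min_le_right _ _)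
  obtain ⟨e2, he2, h1⟩ := key 5 le_rfl
  refine ⟨e2, he2, ?_⟩
  filter_upwards [h1, A.lim.eventually_le_const (show (0 : ℝ) < (r1 - r0) / 2 by linarith), hpz]
    with n g1 g2 g3 k0 F0 ρ e0 he j i hi ω hω
  have h2 := g1 i (by omega) k0 (j + 1) ω.1 ω.sub
    (freshS_mono (freshS_of ω.sub (farS_of hω.2.1)) (by linarith)) (by
      intro t ht1 ht2
      by_contra h3
      exact hω.2.2.2 (j + 1) (by omega) le_rfl ⟨t, ht1, ht2, lt_of_le_of_lt he (not_le.1 h3)⟩)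
  have h3 : |Mj B w k0 n pz C0 q (j + 1) i ω - Mj B w k0 n pz C0 q j i ω| =
      |w.h n (q * (i + 1)) (B.X k0 n (j + 2) ω.1) - w.h n (q * (i + 1)) (B.X k0 n (j + 1) ω.1)| /
        pz (A.δ n)⁻¹ / C0 := by
    unfold Mj
    rw [← sub_div, ← sub_div, abs_div, abs_div, abs_of_pos hC0, abs_of_pos g3]
  rw [h3, div_le_iff₀ hC0, mul_comm ε1]
  exact h2

/-- **All the steps of the micro chain are small.** -/
theorem micro_small {pz : ℝ → ℝ} {C0 al0 δ l : ℝ} (hC0 : 0 < C0) (hal0 : 0 < al0) (hδ : 0 < δ)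
    (hl : 0 < l) (hpz : ∀ᶠ n in atTop, 0 < pz (A.δ n)⁻¹) :
    ∃ s1 : ℝ, 0 < s1 ∧ ∀ {B : Base A r0} {w : Win B}, w.l = l → StJump B w pz →
      ∀ {r1 : ℝ}, r0 < r1 → ∀ {q : ℤ}, 0 < q → q * mesh (w.k1 + 1) ≤ s1 →
      5 * (q * mesh (w.k1 + 1)) < w.l →
      ∃ e2 > 0, ∃ ε2 > 0, ∀ᶠ n in atTop, ∀ (P : Par B) (k0 K : ℕ) (ρ e0 r2 C : ℝ), e0 ≤ e2 →
        MicroAt B w P k0 K n pz C0 q r1 r2 ρ e0 C ε2 →
        ∀ (al : Om (X0 A n).E → ℝ) (F0 : Set (Om (X0 A n).E)),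
        (∀ ω, 0 ≤ al ω) → (∀ ω, al ω ≤ al0) → AdX B k0 n 0 al →
        AdX B k0 n 0 (fun ω => ω ∈ F0) → ∀ (T0 M0 : ℝ) (j : ℕ) (ω : Om (X0 A n).E),
        ω ∉ Lg (ws (Aj B w P k0 K n) (Wj B w P k0 K n) al (gS B k0 n F0 r1 ρ e0)
            (gS B k0 n F0 r2 ρ e0) T0 M0)
          (ts (Aj B w P k0 K n) (Wj B w P k0 K n) al (gS B k0 n F0 r1 ρ e0)
            (gS B k0 n F0 r2 ρ e0) T0 M0) δ j := by
  obtain ⟨s1, hs1, -, -, H⟩ := small_step.{0} (l := l) (a0 := 10 / l) (M := 11 / l) (al0 := al0)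
    (δ := δ) hl (by positivity) (by positivity) hal0 hδ
  refine ⟨s1, hs1, fun {B w} hwl hJ {r1} hr1 {q} hq hqs hql => ?_⟩
  have hqr : (0 : ℝ) < q := by exact_mod_cast hq
  have hs0 : (0 : ℝ) < q * mesh (w.k1 + 1) := mul_pos hqr (mesh_pos _)
  obtain ⟨ε1, hε1, H⟩ := H _ hs0 hqs
  obtain ⟨e2, he2, H2⟩ := micro_jump hC0 hpz hJ hr1 hq hql (half_pos hε1)
  refine ⟨e2, he2, ε1 / 4, by positivity, ?_⟩
  filter_upwards [H2] with n g1 P k0 K ρ e0 r2 C he hM al F0 h1 h2 h3 h4 T0 M0 j ω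
  have hc := hM.chn (j + 1) al0 al F0 h1 h2 h3 h4
  rw [hwl] at hc
  refine H _ _ _ _ _ _ T0 M0 _ (j + 1) _ _ _ _ _ _ hc j (Nat.lt_succ_self j) ω ?_
  intro hω i hi
  obtain ⟨c1, c2⟩ := hc.Stp_g hω
  have o1 := hc.obs j (Nat.le_succ j) i hi ω c1
  have o2 := hc.obs (j + 1) le_rfl i hi ω c2
  have o3 := g1 k0 F0 ρ e0 he j i hi ω c2
  rw [abs_le] at o1 o2 o3 ⊢
  constructor <;> linarith [o1.1, o1.2, o2.1, o2.2, o3.1, o3.2]

end Pool.Agent.H4.Q1.M7
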